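import Mathlib

/-!
# Spaces admitting positive refinement expansive homeomorphisms

A `T₁` space that admits a positive refinement expansive homeomorphism is finite.
-/

open Set

namespace Pool.Agent.Results.MP_b50e26_gt.FiniteSpace

/-- The homeomorphism `f` of the space `X` is positive refinement expansive: there is a finite open
cover `U₁, …, Uₙ` such that for every open cover `𝒱` of `X` and every sequence `k` of indices some
set `⋂_{j ≤ N} f⁻ʲ(U_{k j})` is contained in a member of `𝒱`. -/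
def PositiveRefinementExpansive {X : Type*} [TopologicalSpace X] (f : X ≃ₜ X) : Prop :=
  ∃ (n : ℕ) (U : Fin n → Set X), (∀ i, IsOpen (U i)) ∧ (⋃ i, U i) = univ ∧
    ∀ 𝒱 : Set (Set X), (∀ V ∈ 𝒱, IsOpen V) → ⋃₀ 𝒱 = univ →
      ∀ k : ℕ → Fin n, ∃ N : ℕ, ∃ V ∈ 𝒱, (⋂ j ∈ Finset.range (N + 1), f^[j] ⁻¹' U (k j)) ⊆ V

section

variable {X : Type*} [TopologicalSpace X] (f : X ≃ₜ X) {n : ℕ} (U : Fin n → Set X)

/-- the cells of level `N` -/
def cell (N : ℕ) (k : ℕ → Fin n) : Set X := ⋂ j ∈ Finset.range (N + 1), f^[j] ⁻¹' U (k j)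

lemma mem_cell {N : ℕ} {k : ℕ → Fin n} {x : X} :
    x ∈ cell f U N k ↔ ∀ j ≤ N, f^[j] x ∈ U (k j) := by
  simp [cell]

lemma cell_mono {N M : ℕ} (h : N ≤ M) (k : ℕ → Fin n) : cell f U M k ⊆ cell f U N k := by
  intro x hx
  rw [mem_cell] at hx ⊢
  exact fun j hj => hx j (hj.trans h)

lemma cell_congr {N : ℕ} {k k' : ℕ → Fin n} (h : ∀ j ≤ N, k j = k' j) :
    cell f U N k = cell f U N k' := by
  ext x
  rw [mem_cell, mem_cell]
  constructor
  · intro hx j hj; rw [← h j hj]; exact hx j hj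
  · intro hx j hj; rw [h j hj]; exact hx j hj

/-- uniformity in the sequence of indices, by compactness of the space of sequences -/
lemma uniform {𝒱 : Set (Set X)} (h : ∀ k : ℕ → Fin n, ∃ N : ℕ, ∃ V ∈ 𝒱, cell f U N k ⊆ V) :
    ∃ N : ℕ, ∀ k : ℕ → Fin n, ∃ V ∈ 𝒱, cell f U N k ⊆ V := by
  let S : ℕ → Set (ℕ → Fin n) := fun N => {k | ∃ V ∈ 𝒱, cell f U N k ⊆ V}
  have hmono : Monotone S := by
    intro N M hNM k hk
    obtain ⟨V, hV, hkV⟩ := hk
    exact ⟨V, hV, (cell_mono f U hNM k).trans hkV⟩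
  have hopen : ∀ N, IsOpen (S N) := by
    intro N
    rw [isOpen_iff_mem_nhds]
    intro k hk
    have h1 : {k' : ℕ → Fin n | ∀ j ∈ Finset.range (N + 1), k' j = k j} ∈ nhds k := by
      apply IsOpen.mem_nhds _ (by simp)
      have : {k' : ℕ → Fin n | ∀ j ∈ Finset.range (N + 1), k' j = k j} =
          ⋂ j ∈ Finset.range (N + 1), (fun k' : ℕ → Fin n => k' j) ⁻¹' {k j} := by
        ext k'; simp
      rw [this]
      exact isOpen_biInter_finset fun j _ => (isOpen_discrete _).preimage (continuous_apply j)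
    refine Filter.mem_of_superset h1 ?_
    intro k' hk'
    obtain ⟨V, hV, hkV⟩ := hk
    refine ⟨V, hV, ?_⟩
    rwa [cell_congr f U (k := k') (k' := k) (fun j hj => hk' j (by simp; omega))]
  have hcov : (univ : Set (ℕ → Fin n)) ⊆ ⋃ N, S N := by
    intro k _
    obtain ⟨N, hN⟩ := h k
    exact mem_iUnion.mpr ⟨N, hN⟩
  obtain ⟨N, hN⟩ := isCompact_univ.elim_directed_cover S hopen hcov
    (directed_of_isDirected_le hmono)
  exact ⟨N, fun k => hN (mem_univ k)⟩

end

/-- A `T₁` space that admits a positive refinement expansive homeomorphism is finite. -/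
theorem result (X : Type*) [TopologicalSpace X] [T1Space X] (f : X ≃ₜ X)
    (hf : PositiveRefinementExpansive f) : Finite X := by
  classical
  obtain ⟨n, U, hUo, hUc, hU⟩ := hf
  have hU' : ∀ 𝒱 : Set (Set X), (∀ V ∈ 𝒱, IsOpen V) → ⋃₀ 𝒱 = univ →
      ∃ N : ℕ, ∀ k : ℕ → Fin n, ∃ V ∈ 𝒱, cell f U N k ⊆ V :=
    fun 𝒱 h1 h2 => uniform f U (hU 𝒱 h1 h2)
  -- every point lies in a cell
  have hpt : ∀ x : X, ∃ k : ℕ → Fin n, ∀ N, x ∈ cell f U N k := by
    intro x
    have h1 : ∀ j : ℕ, ∃ i : Fin n, f^[j] x ∈ U i := by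
      intro j
      have : f^[j] x ∈ ⋃ i, U i := by rw [hUc]; exact mem_univ _
      exact mem_iUnion.mp this
    choose k hk using h1
    exact ⟨k, fun N => (mem_cell f U).mpr fun j _ => hk j⟩
  -- the cover by the images of the sets `U i`
  obtain ⟨N, hN⟩ := hU' (range fun i => f '' U i)
    (by rintro _ ⟨i, rfl⟩; exact f.isOpenMap _ (hUo i))
    (by
      rw [eq_univ_iff_forall]
      intro x
      have : f.symm x ∈ ⋃ i, U i := by rw [hUc]; exact mem_univ _
      obtain ⟨i, hi⟩ := mem_iUnion.mp this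
      exact ⟨f '' U i, ⟨i, rfl⟩, f.symm x, hi, f.apply_symm_apply x⟩)
  -- key step
  have key : ∀ m : ℕ, ∀ k : ℕ → Fin n, ∃ k' : ℕ → Fin n,
      cell f U N k ⊆ f^[m] '' cell f U (N + m) k' := by
    intro m
    induction m with
    | zero => intro k; exact ⟨k, by simp⟩
    | succ m ih =>
      intro k
      obtain ⟨k', hk'⟩ := ih k
      obtain ⟨_, ⟨i, rfl⟩, hi⟩ := hN k'
      refine ⟨fun j => Nat.casesOn j i k', ?_⟩
      intro x hx
      obtain ⟨y, hy, rfl⟩ := hk' hx
      obtain ⟨z, hz, rfl⟩ := hi (cell_mono f U (Nat.le_add_right N m) k' hy)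
      refine ⟨z, ?_, by rw [Function.iterate_succ_apply]⟩
      rw [mem_cell]
      intro j hj
      cases j with
      | zero => simpa using hz
      | succ j =>
        rw [Function.iterate_succ_apply]
        exact (mem_cell f U).mp hy j (by omega)
  -- counting
  by_contra hinf
  rw [not_finite_iff_infinite] at hinf
  obtain ⟨F, hF⟩ := Infinite.exists_subset_card_eq X (Fintype.card (Fin (N + 1) → Fin n) + 1)
  have hFne : F.Nonempty := by rw [← Finset.card_pos, hF]; omega
  obtain ⟨x₀, hx₀⟩ := hFne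
  obtain ⟨M, hM⟩ := hU' ((fun x => ((F : Set X) \ {x})ᶜ) '' (F : Set X))
    (by
      rintro _ ⟨x, _, rfl⟩
      exact (F.finite_toSet.subset sdiff_subset).isClosed.isOpen_compl)
    (by
      rw [eq_univ_iff_forall]
      intro y
      by_cases hy : y ∈ F
      · exact ⟨_, ⟨y, hy, rfl⟩, by simp⟩
      · exact ⟨_, ⟨x₀, hx₀, rfl⟩, fun h => hy h.1⟩)
  choose w hw using fun x : X => hpt (f^[M] x)
  have hinj : Function.Injective
      (fun (x : F) (j : Fin (N + 1)) => w x j) := by
    intro x y hxy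
    have h1 : cell f U N (w x) = cell f U N (w y) :=
      cell_congr f U fun j hj => congrFun hxy (⟨j, by omega⟩ : Fin (N + 1))
    obtain ⟨k', hk'⟩ := key M (w x)
    obtain ⟨a, ha, hax⟩ := hk' (hw x N)
    obtain ⟨b, hb, hby⟩ := hk' (by rw [h1]; exact hw y N)
    have hinjM : Function.Injective (f^[M]) := f.injective.iterate M
    have ea : a = x := hinjM hax
    have eb : b = y := hinjM hby
    obtain ⟨_, ⟨z, hz, rfl⟩, hzV⟩ := hM k'
    have h2 := hzV (cell_mono f U (Nat.le_add_left M N) k' ha)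
    have h3 := hzV (cell_mono f U (Nat.le_add_left M N) k' hb)
    rw [ea] at h2
    rw [eb] at h3
    have h4 : (x : X) = z := by
      by_contra h; exact h2 ⟨x.2, h⟩
    have h5 : (y : X) = z := by
      by_contra h; exact h3 ⟨y.2, h⟩
    exact Subtype.ext (h4.trans h5.symm)
  have := Fintype.card_le_of_injective _ hinj
  rw [Fintype.card_coe, hF] at this
  omega

end Pool.Agent.Results.MP_b50e26_gt.FiniteSpace
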